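import Pool.Agent.W_MP_6e7106_pr.Torus

/-!
# Large-diameter clusters do not imply giant components: thin tori at the critical length

For a fixed `p < 1` close to `1` we choose the tori `C_N □ C_m` with `N = N(m)` exponentially
large in `m` so that the number of closed cuts around the torus is of order one.
-/

namespace Pool.Agent.Results.MP_6e7106_pr.ThinTori

open Pool.Agent.W_MP_6e7106_pr Filter

/-- the exponent of the critical length of the cylinder of circumference `k + 3` -/
noncomputable def tt (k : ℕ) : ℕ := Classical.choose (exists_threshold (k + 3))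

lemma tt_spec (k : ℕ) : 3 * (k + 3) ≤ tt k ∧ 1 / 2 ≤ xp (k + 3) pc (2 ^ tt k) ∧
    xp (k + 3) pc (2 ^ (tt k + 1)) < 1 / 2 := Classical.choose_spec (exists_threshold (k + 3))

lemma size_ge (k : ℕ) : 3 ≤ 2 ^ (tt k + 1) := by
  have h := (tt_spec k).1
  calc 3 ≤ 2 ^ 2 := by norm_num
    _ ≤ 2 ^ (tt k + 1) := Nat.pow_le_pow_right (by norm_num) (by omega)

instance instN (k : ℕ) : NeZero (2 ^ (tt k + 1)) := ⟨by positivity⟩

/-- There are an edge density `0 < p < 1`, a number `δ > 0` and a sequence `G n` of finite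
connected `4`-regular vertex-transitive graphs with `|V n| → ∞` such that for all `n` every
vertex of `G n` lies with probability greater than `δ` in a component of diameter at least
`diam (G n) / 2`, and yet for every `C > 0` the probability that some component has at least
`C |V n|` vertices stays bounded away from `1`. -/
theorem result :
    ∃ (V : ℕ → Type) (_ : ∀ n, Fintype (V n)) (G : ∀ n, SimpleGraph (V n)) (p δ : ℝ),
      (∀ n, (G n).Connected ∧ (∀ v, ((G n).neighborSet v).ncard = 4) ∧ IsTransitive (G n)) ∧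
      Tendsto (fun n => Fintype.card (V n)) atTop atTop ∧
      0 < p ∧ p < 1 ∧ 0 < δ ∧
      (∀ n, ∀ v : V n, δ < percProb (G n) p (fun H => InLargeDiameterComponent (G n) H v)) ∧
      ∀ C : ℝ, 0 < C → ∃ c : ℝ, c < 1 ∧ ∀ᶠ n in atTop,
        percProb (G n) p (fun H => HasComponentOfSize H (C * Fintype.card (V n))) ≤ c := by
  refine ⟨fun k => ZMod (2 ^ (tt k + 1)) × ZMod (k + 3), fun k => inferInstance,
    fun k => torus (2 ^ (tt k + 1)) (k + 3), pc, 1 / 64, ?_, ?_, ?_, pc_lt_one, by norm_num,
    ?_, ?_⟩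
  · intro k
    exact ⟨torus_connected (size_ge k) (by omega), torus_regular (size_ge k) (by omega),
      torus_transitive _ _⟩
  · apply tendsto_atTop_mono _ tendsto_id
    intro k
    simp only [id_eq, Fintype.card_prod, ZMod.card]
    have h := size_ge k
    nlinarith
  · have := pc_half
    linarith
  · intro k v
    obtain ⟨h1, h2, h3⟩ := tt_spec k
    have hreach := PN_reach (m := k + 3) (by omega) h1 h2
    have hmT : k + 3 ≤ 2 ^ tt k := by
      have h4 : k + 3 < 2 ^ (k + 3) := Nat.lt_two_pow_self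
      have h5 : 2 ^ (k + 3) ≤ 2 ^ tt k := Nat.pow_le_pow_right (by norm_num) (by omega)
      omega
    have h6 := hyp_of_reach (N := 2 ^ (tt k + 1)) (m := k + 3) (T := 2 ^ tt k) (size_ge k)
      (by omega) (by rw [pow_succ]; ring) hmT v
    have h7 : (1 : ℝ) / 64 < 1 / 32 := by norm_num
    exact lt_of_lt_of_le h7 (hreach.trans h6)
  · intro C hC
    obtain ⟨j, hj⟩ : ∃ j : ℕ, 2 < C * 2 ^ j := by
      obtain ⟨j, hj⟩ := pow_unbounded_of_one_lt (2 / C) (by norm_num : (1 : ℝ) < 2)
      exact ⟨j, by rw [div_lt_iff₀ hC] at hj; linarith⟩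
    refine ⟨1 - (1 / (4 * 2 ^ (j + 1)) : ℝ) ^ (2 ^ j), ?_, ?_⟩
    · have : (0 : ℝ) < (1 / (4 * 2 ^ (j + 1)) : ℝ) ^ (2 ^ j) := by positivity
      linarith
    · rw [eventually_atTop]
      refine ⟨j, fun k hk => ?_⟩
      obtain ⟨h1, h2, h3⟩ := tt_spec k
      have hb := PN_blocks (m := k + 3) (t := tt k) (k := j) (by omega) h1 h3
      rw [percProb_eq _ (tau _ (k + 3)) (tau_injective (size_ge k) (by omega))
        (range_tau (size_ge k) (by omega))]
      have hNK : 2 ^ (tt k + 1) = 2 ^ j * 2 ^ (tt k + 1 - j) := by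
        rw [← pow_add]; congr 1; omega
      have hle : Pr pc (fun ω : Ix (2 ^ (tt k + 1)) (k + 3) → Bool =>
          HasComponentOfSize (openG (tau (2 ^ (tt k + 1)) (k + 3)) ω)
            (C * Fintype.card (ZMod (2 ^ (tt k + 1)) × ZMod (k + 3)))) ≤
          Pr pc (fun ω : Ix (2 ^ (tt k + 1)) (k + 3) → Bool => ¬ (∀ s ∈ Finset.range (2 ^ j),
            ¬ Cross ((s : ℤ) * (2 ^ (tt k + 1 - j) : ℕ))
              ((s : ℤ) * (2 ^ (tt k + 1 - j) : ℕ) + (2 ^ (tt k + 1 - j) - 1 : ℕ)) (lift ω))) := by
        apply Pr_mono pc_nonneg pc_le_one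
        intro ω hω hall
        have : NeZero (2 ^ j) := ⟨by positivity⟩
        exact no_giant (K := 2 ^ j) (L := 2 ^ (tt k + 1 - j)) (by positivity) hNK
          (by push_cast; exact hj) hall hω
      rw [Pr_not] at hle
      refine hle.trans ?_
      unfold PN at hb
      linarith

end Pool.Agent.Results.MP_6e7106_pr.ThinTori
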